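import Pool.Agent.BEF.Stmts

/-!
# Row NEZ of the squad BEF (problem MP_be01ff_an): the damping is strictly negative
-/

set_option autoImplicit false

namespace Pool.Agent.BEF.H65

open Set Filter Topology MeasureTheory
open scoped InnerProductSpace
open Pool.Agent.BE01 Pool.Agent.BEF

section

variable {X Y H : Type} [NormedCommRing X] [NormedAlgebra ℝ X]
  [NormedAddCommGroup Y] [NormedSpace ℝ Y] [NormedAddCommGroup H] [InnerProductSpace ℝ H] {m : ℕ}

theorem pw_cont (φ : Fin m → H) :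
    Continuous fun q : (Fin m ⊕ Fin m → ℝ) × ℝ => pw φ q.2 q.1 := by
  unfold pw
  refine continuous_finset_sum _ fun i _ => Continuous.smul ?_ continuous_const
  refine Continuous.sub ?_ ?_
  · exact ((continuous_apply _).comp continuous_fst).mul (Real.continuous_cos.comp continuous_snd)
  · exact ((continuous_apply _).comp continuous_fst).mul (Real.continuous_sin.comp continuous_snd)

theorem pw_smul (φ : Fin m → H) (ψ s : ℝ) (z : Fin m ⊕ Fin m → ℝ) :
    pw φ ψ (s • z) = s • pw φ ψ z := by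
  unfold pw
  rw [Finset.smul_sum]
  refine Finset.sum_congr rfl fun i _ => ?_
  rw [smul_smul, Pi.smul_apply, Pi.smul_apply, smul_eq_mul, smul_eq_mul]
  congr 1
  ring

/-- the integrand -/
noncomputable def gz (A : Alg X Y H) (W : Wv A) (p : ℕ) (ω : ℝ) (φ : Fin m → H)
    (z : Fin m ⊕ Fin m → ℝ) (ψ : ℝ) : ℝ :=
  ⟪A.e (W.SX ((ω ^ 3) • pw φ ψ z) ^ (2 * p + 1)), pw φ ψ z⟫_ℝ

theorem gz_cont (A : Alg X Y H) (W : Wv A) (p : ℕ) (ω : ℝ) (φ : Fin m → H) :
    Continuous (Function.uncurry (gz A W p ω φ)) := by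
  have h1 := pw_cont (m := m) φ
  have h2 : Continuous fun q : (Fin m ⊕ Fin m → ℝ) × ℝ =>
      A.e (W.SX ((ω ^ 3) • pw φ q.2 q.1) ^ (2 * p + 1)) :=
    A.e.continuous.comp ((W.SX.continuous.comp (h1.const_smul (ω ^ 3))).pow _)
  exact h2.inner h1

theorem gz_smul (A : Alg X Y H) (W : Wv A) (p : ℕ) (ω : ℝ) (φ : Fin m → H)
    (z : Fin m ⊕ Fin m → ℝ) (ψ s : ℝ) :
    gz A W p ω φ (s • z) ψ = s ^ (2 * p + 2) * gz A W p ω φ z ψ := by
  unfold gz
  rw [pw_smul, smul_comm (ω ^ 3) s, map_smul, smul_pow, map_smul, real_inner_smul_left,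
    real_inner_smul_right]
  ring

theorem pw_e (A : Alg X Y H) (W : Wv A) (ω : ℝ) (φ : Fin m → H)
    (hE : Evc W ω φ) (ψ : ℝ) (z : Fin m ⊕ Fin m → ℝ) :
    A.e (W.SX ((ω ^ 3) • pw φ ψ z)) = ω • pw φ ψ z := by
  rw [W.e_SX, map_smul]
  have h1 : (ω ^ 2) • W.S (pw φ ψ z) = pw φ ψ z := by
    unfold pw
    rw [map_sum, Finset.smul_sum]
    refine Finset.sum_congr rfl fun i _ => ?_
    rw [map_smul, smul_comm, hE.2 i]
  have h2 : ω ^ 3 = ω * ω ^ 2 := by ring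
  rw [h2, mul_smul, h1]

theorem gz_nonneg (A : Alg X Y H) (W : Wv A) (p : ℕ) (ω : ℝ) (φ : Fin m → H) (hω : 0 < ω)
    (hE : Evc W ω φ) (hP : Psv A p) (z : Fin m ⊕ Fin m → ℝ) (ψ : ℝ) :
    0 ≤ gz A W p ω φ z ψ ∧ (pw φ ψ z ≠ 0 → 0 < gz A W p ω φ z ψ) := by
  have h1 := pw_e A W ω φ hE ψ z
  have h2 : gz A W p ω φ z ψ = ω⁻¹ *
      ⟪A.e (W.SX ((ω ^ 3) • pw φ ψ z) ^ (2 * p + 1)), A.e (W.SX ((ω ^ 3) • pw φ ψ z))⟫_ℝ := by
    unfold gz
    rw [h1, real_inner_smul_right, ← mul_assoc, inv_mul_cancel₀ hω.ne', one_mul]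
  constructor
  · by_cases h : A.e (W.SX ((ω ^ 3) • pw φ ψ z)) = 0
    · rw [h2, h, inner_zero_right, mul_zero]
    · rw [h2]
      exact (mul_pos (inv_pos.mpr hω) (hP (W.SX ((ω ^ 3) • pw φ ψ z)) h)).le
  · intro h
    rw [h2]
    have h3 : A.e (W.SX ((ω ^ 3) • pw φ ψ z)) ≠ 0 := by
      rw [h1]
      exact smul_ne_zero hω.ne' h
    exact mul_pos (inv_pos.mpr hω) (hP (W.SX ((ω ^ 3) • pw φ ψ z)) h3)

theorem pw_ne (ω : ℝ) (φ : Fin m → H) (hφ : Orthonormal ℝ φ) (z : Fin m ⊕ Fin m → ℝ) (hz : z ≠ 0) :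
    ∃ ψ ∈ Icc (0 : ℝ) (2 * Real.pi), pw φ ψ z ≠ 0 := by
  have hli := Fintype.linearIndependent_iff.mp hφ.linearIndependent
  have hpi := Real.pi_pos
  by_contra hcon
  push Not at hcon
  have h0 := hcon 0 ⟨le_rfl, by linarith⟩
  have h1 := hcon (Real.pi / 2) ⟨by linarith, by linarith⟩
  apply hz
  funext j
  rcases j with i | i
  · have h2 : ∑ i, (-(z (Sum.inl i))) • φ i = 0 := by
      rw [← h1]
      unfold pw
      refine Finset.sum_congr rfl fun i _ => ?_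
      rw [Real.cos_pi_div_two, Real.sin_pi_div_two]
      congr 1
      ring
    have h3 := hli _ h2 i
    show z (Sum.inl i) = 0
    linarith
  · have h2 : ∑ i, (z (Sum.inr i)) • φ i = 0 := by
      rw [← h0]
      unfold pw
      refine Finset.sum_congr rfl fun i _ => ?_
      rw [Real.cos_zero, Real.sin_zero]
      congr 1
      ring
    exact hli _ h2 i

end

theorem nez_core {X Y H : Type} [NormedCommRing X] [NormedAlgebra ℝ X]
    [NormedAddCommGroup Y] [NormedSpace ℝ Y] [NormedAddCommGroup H] [InnerProductSpace ℝ H]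
    (A : Alg X Y H) (W : Wv A) (m p : ℕ) (ω : ℝ) (φ : Fin m → H) (hω : 0 < ω) (hE : Evc W ω φ)
    (hP : Psv A p) : ∃ c > 0, ∀ z : Fin m ⊕ Fin m → ℝ, c * (∑ i, z i ^ 2) ^ (p + 1) ≤
      ∫ ψ in (0 : ℝ)..(2 * Real.pi), gz A W p ω φ z ψ := by
  obtain ⟨I, hI⟩ : ∃ I : (Fin m ⊕ Fin m → ℝ) → ℝ,
      ∀ z, I z = ∫ ψ in (0 : ℝ)..(2 * Real.pi), gz A W p ω φ z ψ := ⟨_, fun _ => rfl⟩
  have hpi := Real.pi_pos
  have hcont : Continuous I := by
    have h1 : I = fun z => ∫ ψ in (0 : ℝ)..(2 * Real.pi), gz A W p ω φ z ψ := funext hI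
    rw [h1]
    exact intervalIntegral.continuous_parametric_intervalIntegral_of_continuous'
      (gz_cont A W p ω φ) 0 (2 * Real.pi)
  have hgc : ∀ z, Continuous (gz A W p ω φ z) := by
    intro z
    have h0 : Continuous fun ψ : ℝ => (z, ψ) := by fun_prop
    have h1 : Continuous fun ψ : ℝ => Function.uncurry (gz A W p ω φ) (z, ψ) :=
      (gz_cont A W p ω φ).comp h0
    exact h1
  have hnn : ∀ z, 0 ≤ I z := by
    intro z
    rw [hI]
    exact intervalIntegral.integral_nonneg (by linarith) fun ψ _ =>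
      (gz_nonneg A W p ω φ hω hE hP z ψ).1
  have hpos : ∀ z, z ≠ 0 → 0 < I z := by
    intro z hz
    rw [hI]
    obtain ⟨ψ, hψ, hne⟩ := pw_ne ω φ hE.1 z hz
    have h2π : (0 : ℝ) < 2 * Real.pi := by linarith
    have hco : ContinuousOn (gz A W p ω φ z) (Icc 0 (2 * Real.pi)) := (hgc z).continuousOn
    have hle : ∀ t ∈ Ioc (0 : ℝ) (2 * Real.pi), 0 ≤ gz A W p ω φ z t :=
      fun t _ => (gz_nonneg A W p ω φ hω hE hP z t).1
    have hlt : ∃ t ∈ Icc (0 : ℝ) (2 * Real.pi), 0 < gz A W p ω φ z t :=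
      ⟨ψ, hψ, (gz_nonneg A W p ω φ hω hE hP z ψ).2 hne⟩
    exact intervalIntegral.integral_pos h2π hco hle hlt
  have hhom : ∀ (s : ℝ) z, I (s • z) = s ^ (2 * p + 2) * I z := by
    intro s z
    rw [hI, hI, ← intervalIntegral.integral_const_mul]
    exact intervalIntegral.integral_congr fun ψ _ => gz_smul A W p ω φ z ψ s
  obtain ⟨K, hK⟩ : ∃ K : Set (Fin m ⊕ Fin m → ℝ), K = {z | ∑ i, z i ^ 2 = 1} := ⟨_, rfl⟩
  have hKc : IsCompact K := by
    refine Metric.isCompact_of_isClosed_isBounded ?_ ?_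
    · rw [hK]
      exact isClosed_eq (continuous_finset_sum _ fun i _ => (continuous_apply i).pow 2)
        continuous_const
    · refine (Metric.isBounded_closedBall (x := (0 : Fin m ⊕ Fin m → ℝ)) (r := 1)).subset ?_
      intro z hz
      rw [hK] at hz
      rw [Metric.mem_closedBall, dist_zero_right, pi_norm_le_iff_of_nonneg zero_le_one]
      intro i
      have hz' : ∑ i, z i ^ 2 = 1 := hz
      have h1 : z i ^ 2 ≤ 1 := by
        rw [← hz']
        exact Finset.single_le_sum (f := fun i => z i ^ 2) (fun j _ => sq_nonneg _)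
          (Finset.mem_univ i)
      rw [Real.norm_eq_abs]
      exact abs_le_one_iff_mul_self_le_one.mpr (by nlinarith)
  have hred : ∀ c : ℝ, (∀ z ∈ K, c ≤ I z) → ∀ z : Fin m ⊕ Fin m → ℝ,
      c * (∑ i, z i ^ 2) ^ (p + 1) ≤ I z := by
    intro c hc z
    obtain ⟨r, hr⟩ : ∃ r : ℝ, r = ∑ i, z i ^ 2 := ⟨_, rfl⟩
    rw [← hr]
    have hr0 : 0 ≤ r := by
      rw [hr]
      exact Finset.sum_nonneg fun i _ => sq_nonneg _
    rcases eq_or_lt_of_le hr0 with h | h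
    · rw [← h, zero_pow (Nat.succ_ne_zero p), mul_zero]
      exact hnn z
    · obtain ⟨s, hs⟩ : ∃ s : ℝ, s = Real.sqrt r := ⟨_, rfl⟩
      have hs0 : 0 < s := by
        rw [hs]
        exact Real.sqrt_pos.mpr h
      have hs2 : s ^ 2 = r := by
        rw [hs]
        exact Real.sq_sqrt hr0
      have hzs : z = s • (s⁻¹ • z) := by
        rw [smul_smul, mul_inv_cancel₀ hs0.ne', one_smul]
      have hmem : s⁻¹ • z ∈ K := by
        rw [hK]
        show ∑ i, (s⁻¹ • z) i ^ 2 = 1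
        have h1 : ∀ i, (s⁻¹ • z) i ^ 2 = (s ^ 2)⁻¹ * z i ^ 2 := by
          intro i
          rw [Pi.smul_apply, smul_eq_mul, mul_pow, inv_pow]
        rw [Finset.sum_congr rfl fun i _ => h1 i, ← Finset.mul_sum, ← hr, hs2,
          inv_mul_cancel₀ h.ne']
      have h2 := hc _ hmem
      have h3 : r ^ (p + 1) = s ^ (2 * p + 2) := by
        rw [← hs2, ← pow_mul]
        have h4 : 2 * (p + 1) = 2 * p + 2 := by ring
        rw [h4]
      rw [hzs, hhom, h3]
      rw [mul_comm c]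
      exact mul_le_mul_of_nonneg_left h2 (pow_nonneg hs0.le _)
  have hfin : ∃ c > 0, ∀ z : Fin m ⊕ Fin m → ℝ, c * (∑ i, z i ^ 2) ^ (p + 1) ≤ I z := by
    by_cases hKn : K.Nonempty
    · obtain ⟨z0, hz0, hmin⟩ := hKc.exists_isMinOn hKn hcont.continuousOn
      have hz0' : z0 ≠ 0 := by
        intro h
        rw [hK, h] at hz0
        have h1 : ∑ i, (0 : Fin m ⊕ Fin m → ℝ) i ^ 2 = (1 : ℝ) := hz0
        have h2 : ∑ i, (0 : Fin m ⊕ Fin m → ℝ) i ^ 2 = (0 : ℝ) :=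
          Finset.sum_eq_zero fun i _ => by rw [Pi.zero_apply, zero_pow two_ne_zero]
        rw [h2] at h1
        exact zero_ne_one h1
      exact ⟨I z0, hpos z0 hz0', hred (I z0) (fun z hz => hmin hz)⟩
    · exact ⟨1, one_pos, hred 1 (fun z hz => absurd ⟨z, hz⟩ hKn)⟩
  obtain ⟨c, hc, h⟩ := hfin
  refine ⟨c, hc, ?_⟩
  intro z
  have h1 := h z
  rw [hI z] at h1
  exact h1

/-- NEZ -/
theorem nez (_qpw : QpwStmt) : NezStmt := by
  intro X Y H _ _ _ _ _ _ A W m p ω φ hp hω hE hP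
  have h := nez_core A W m p ω φ hω hE hP
  unfold gz at h
  exact h

end Pool.Agent.BEF.H65
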